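import Mathlib

/-!
# Statements of project G3 (helper600), page MP_d69e80_al

Uniform gap for the growth of groups modulo the third derived subgroup.
-/

set_option autoImplicit false

namespace Pool.Agent.N600.G3

open scoped Pointwise

universe u

/-- `b` is a crossed homomorphism with values in the field `F` on which `M` acts by the
character `χ` -/
def Crossed {M F : Type*} [Group M] [Field F] (χ : M →* Fˣ) (b : M → F) : Prop :=
  ∀ m m' : M, b (m * m') = b m + (χ m : F) * b m'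

/-- the ordered product of the `d j` with `x j = true` -/
def AA {M : Type*} [Group M] {K : ℕ} (d : Fin K → M) (x : Fin K → Bool) : M :=
  (List.ofFn fun j => if x j then d j else 1).prod

/-- the product of the first `n` letters of `s` -/
def hh {G : Type*} [Group G] (s : ℕ → G) : ℕ → G
  | 0 => 1
  | n + 1 => hh s n * s n

/-- commutators of elements of `T` -/
def CT {G : Type*} [Group G] (T : Set G) : Set G :=
  {x | ∃ s ∈ T, ∃ t ∈ T, x = s * t * s⁻¹ * t⁻¹}

/-- conjugation on the derived subgroup -/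
def cj {G : Type*} [Group G] (g : G) : commutator G →* commutator G :=
  (MulAut.conjNormal g).toMonoidHom

/-! ### counting -/

/-- chain rule, two steps -/
def S_ENT1 : Prop :=
  ∀ (A B : Type) (Y Z : Type u) [Fintype A] [Fintype B] [Nonempty A] [Nonempty B]
    (f : A → Y) (g : A → B → Z),
    ∑ a, ∑ b, Real.log (Nat.card {p : A × B // f p.1 = f a ∧ g p.1 p.2 = g a b}) ≤
      (Fintype.card B : ℝ) * ∑ a, Real.log (Nat.card {a' : A // f a' = f a}) +
      ∑ a, ∑ b, Real.log (Nat.card {b' : B // g a b' = g a b})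

/-- size of the image and average size of the fibres -/
def S_ENT2 : Prop :=
  ∀ (Ω : Type) (Y : Type u) [Fintype Ω] [Nonempty Ω] (X : Ω → Y),
    (Fintype.card Ω : ℝ) *
        (Real.log (Fintype.card Ω) - Real.log (Nat.card (Set.range X))) ≤
      ∑ w, Real.log (Nat.card {w' : Ω // X w' = X w})

/-- chain rule, `K` steps -/
def S_ENT3 : Prop :=
  ∀ (K : ℕ) (B : Type) (Z : Type u) [Fintype B] [Nonempty B] (X : (Fin K → B) → Fin K → Z),
    (∀ k δ δ', (∀ i ≤ k, δ i = δ' i) → X δ k = X δ' k) →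
    ∑ δ : Fin K → B, Real.log (Nat.card {δ' : Fin K → B // X δ' = X δ}) ≤
      ∑ δ : Fin K → B, ∑ k, Real.log (Nat.card {x : B // X (Function.update δ k x) k = X δ k})

/-- lower bound for the size of the image of a triangular map -/
def S_ENTF : Prop :=
  ∀ (K : ℕ) (B : Type) (Z : Type u) [Fintype B] [Nonempty B] (X : (Fin K → B) → Fin K → Z)
    (m : (Fin K → B) → Fin K → ℕ),
    (∀ k δ δ', (∀ i ≤ k, δ i = δ' i) → X δ k = X δ' k) →
    (∀ δ k, 2 ^ m δ k * Nat.card {x : B // X (Function.update δ k x) k = X δ k} ≤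
      Fintype.card B) →
    Real.log 2 * ∑ δ : Fin K → B, ∑ k, (m δ k : ℝ) ≤
      (Fintype.card B : ℝ) ^ K * Real.log (Nat.card (Set.range X))

/-- subset sums of elements with many valuations -/
def S_FIB : Prop :=
  ∀ (F : Type u) [Field F] (Γ₀ : Type u) [LinearOrderedCommGroupWithZero Γ₀]
    (v : Valuation F Γ₀) (R : ℕ) (a : Fin R → F), (∀ r, a r ≠ 0) → ∀ y : F,
    2 ^ (Set.range fun r => v (a r)).ncard *
      Nat.card {x : Fin R → Bool // ∑ r, (if x r then a r else 0) = y} ≤ 2 ^ R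

/-- a random multiplicative walk with independent perturbations has many values -/
def S_SEC : Prop :=
  ∀ (Γ₀ : Type u) [LinearOrderedCommGroupWithZero Γ₀] (γ : Γ₀), γ ≠ 0 → γ ≠ 1 →
    ∀ (A : Type) [Fintype A] [Nonempty A] (σ : A → Γ₀), (∀ a, σ a ≠ 0) → ∀ R : ℕ,
    (R : ℝ) / 2 * (Fintype.card A : ℝ) ^ R ≤
      ∑ x : Fin R → A, ((Set.range fun r : Fin R => γ ^ (r : ℕ) * σ (x r)).ncard : ℝ)

/-- crossed homomorphisms on products of conjugates of `U` -/
def S_PRD : Prop :=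
  ∀ (M : Type u) [Group M] (F : Type u) [Field F] (χ : M →* Fˣ) (b : M → F), Crossed χ b →
    ∀ U : M, b U = 0 → ∀ (R : ℕ) (A : Fin R → M),
    b (List.ofFn fun r => A r * U * (A r)⁻¹).prod =
      (1 - (χ U : F)) * ∑ r : Fin R, (χ U : F) ^ (r : ℕ) * b (A r)

/-- crossed homomorphisms on the products `AA d x` -/
def S_TRI : Prop :=
  ∀ (M : Type u) [Group M] (F : Type u) [Field F] (χ : M →* Fˣ) (b : M → F), Crossed χ b →
    ∀ (K : ℕ) (d : Fin K → M) (k : Fin K), (∀ j, k < j → b (d j) = 0) →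
    ∃ (g : (Fin K → Bool) → F) (σ : (Fin K → Bool) → Fˣ),
      (∀ x x', (∀ i < k, x i = x' i) → g x = g x' ∧ σ x = σ x') ∧
      ∀ x, b (AA d x) = g x + (σ x : F) * (if x k then b (d k) else 0)

/-- half of the characters can be made non-trivial at the same time -/
def S_EPS : Prop :=
  ∀ (M : Type u) [Group M] (Γ₀ : Type u) [LinearOrderedCommGroupWithZero Γ₀] (K : ℕ)
    (w : Fin K → M →* Γ₀) (c : Fin K → M), (∀ i, w i (c i) ≠ 1) →
    ∃ ε : Fin K → Bool, K ≤ 2 * (Set.ncard {k : Fin K | w k (AA c ε) ≠ 1})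

/-- the counting theorem -/
def S_CNT : Prop :=
  ∀ (M : Type u) [Group M] (F : Type u) [Field F] (Γ₀ : Type u)
    [LinearOrderedCommGroupWithZero Γ₀] (v : Valuation F Γ₀) (K : ℕ)
    (χ : Fin K → M →* Fˣ) (b : Fin K → M → F), (∀ k, Crossed (χ k) (b k)) →
    ∀ c d : Fin K → M, (∀ i j, b i (c j) = 0) → (∀ i j, i < j → b i (d j) = 0) →
    (∀ i, b i (d i) ≠ 0) → (∀ i, v (χ i (c i) : F) ≠ 1) →
    ∃ ε : Fin K → Bool, ∀ R : ℕ,
      2 ^ (K * R) ≤ (Nat.card (Set.range fun δ : Fin R → Fin K → Bool =>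
        (List.ofFn fun r => AA d (δ r) * AA c ε * (AA d (δ r))⁻¹).prod)) ^ 4

/-! ### words -/

/-- lines along a shortest word -/
def S_GEO : Prop :=
  ∀ (G : Type u) [Group G] (T : Set G), 1 ∈ T → T⁻¹ = T → Subgroup.closure T = ⊤ →
    ∀ (F : Type u) [Field F] (χ : commutator G →* Fˣ) (b : commutator G → F), Crossed χ b →
    ∀ c : commutator G, (c : G) ∈ CT T → b c = 0 → (∃ m, b m ≠ 0) →
    ∃ (K : ℕ) (s : ℕ → G) (d : commutator G), 0 < K ∧ (∀ i, s i ∈ T) ∧ (d : G) ∈ CT T ∧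
      (∀ i < K, ∀ j < K, b (cj ((hh s i)⁻¹ * hh s j) c) = 0) ∧
      (∀ k i, k < i → i < K → b (cj ((hh s i)⁻¹ * hh s (K + k)) d) = 0) ∧
      (∀ k < K, b (cj ((hh s k)⁻¹ * hh s (K + k)) d) ≠ 0)

/-- word lengths -/
def S_LEN : Prop :=
  ∀ (G : Type u) [Group G] (T : Set G), 1 ∈ T → T⁻¹ = T → ∀ s : ℕ → G, (∀ i, s i ∈ T) →
    ∀ c d : G, c ∈ CT T → d ∈ CT T → ∀ K : ℕ, 0 < K →
    (∀ ε : Fin K → Bool,
      AA (fun j : Fin K => hh s (K - 1 - j) * c * (hh s (K - 1 - j))⁻¹) ε ∈ T ^ (6 * K)) ∧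
    (∀ x : Fin K → Bool,
      AA (fun j : Fin K => hh s (K + (K - 1 - j)) * d * (hh s (K + (K - 1 - j)))⁻¹) x ∈
        T ^ (8 * K))

/-- growth from a crossed homomorphism -/
def S_THA : Prop :=
  ∀ (G : Type u) [Group G] (T : Set G), T.Finite → 1 ∈ T → T⁻¹ = T →
    Subgroup.closure T = ⊤ →
    ∀ (F : Type u) [Field F] (Γ₀ : Type u) [LinearOrderedCommGroupWithZero Γ₀]
      (v : Valuation F Γ₀) (χ : commutator G →* Fˣ) (b : commutator G → F), Crossed χ b →
    ∀ c : commutator G, (c : G) ∈ CT T → b c = 0 → v (χ c : F) ≠ 1 → (∃ m, b m ≠ 0) →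
    ∃ K > 0, ∀ R : ℕ, 2 ^ (K * R) ≤ (Nat.card ↥(T ^ (22 * K * R))) ^ 4

/-! ### algebra -/

/-- an element of a field which is not integral over `ℤ` has a valuation `> 1` -/
def S_VAL : Prop :=
  ∀ (F : Type u) [Field F] (x : F), ¬ IsIntegral ℤ x →
    ∃ (Γ₀ : Type u) (_ : LinearOrderedCommGroupWithZero Γ₀) (v : Valuation F Γ₀), 1 < v x

/-- torsion-free sections of rank one of modules which are not finitely generated over `ℤ` -/
def S_CA : Prop :=
  ∀ (R : Type u) [CommRing R] [IsNoetherianRing R] (N : Type u) [AddCommGroup N] [Module R N]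
    [Module.Finite R N], ¬ Module.Finite ℤ N →
    ∃ P : Ideal R, P.IsPrime ∧ ¬ Module.Finite ℤ (R ⧸ P) ∧
      ∃ (F : Type u) (_ : Field F) (φ : R →+* F) (f : N →+ F), RingHom.ker φ = P ∧
        (∀ r n, f (r • n) = φ r * f n) ∧ f ≠ 0

/-- a finitely generated group of algebraic integers generates a finite `ℤ`-module -/
def S_INT : Prop :=
  ∀ (R : Type u) [CommRing R] (V : Type u) [Group V] [Group.FG V] (q : V →* R),
    Submodule.span ℤ (Set.range q) = ⊤ → ∀ P : Ideal R, ¬ Module.Finite ℤ (R ⧸ P) →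
    ∃ x : V, ¬ IsIntegral ℤ (Ideal.Quotient.mk P (q x))

/-- valued sections of metabelian groups -/
def S_ALG : Prop :=
  ∀ (M : Type u) [Group M] [Group.FG M],
    (∀ x ∈ commutator M, ∀ y ∈ commutator M, x * y = y * x) → ¬ (commutator M).FG →
    ∃ (F : Type u) (_ : Field F) (Γ₀ : Type u) (_ : LinearOrderedCommGroupWithZero Γ₀)
      (v : Valuation F Γ₀) (χ : M →* Fˣ) (f : M → F),
      (∀ x ∈ commutator M, ∀ y ∈ commutator M, f (x * y) = f x + f y) ∧
      (∀ m, ∀ x ∈ commutator M, f (m * x * m⁻¹) = (χ m : F) * f x) ∧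
      (∃ x ∈ commutator M, f x ≠ 0) ∧ (∃ m, v (χ m : F) ≠ 1)

end Pool.Agent.N600.G3
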