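import Pool.Agent.N600.G3.Red
import Pool.Agent.N711.G3.ENT1
import Pool.Agent.N787.G3.ENT2
import Pool.Agent.N99.G3.ENT3
import Pool.Agent.N488.G3.ENTF
import Pool.Agent.N405.G3.FIB
import Pool.Agent.N713.G3.Sec
import Pool.Agent.N693.G3.PRDTRI
import Pool.Agent.N499.G3.EPS
import Pool.Agent.N558.G3.CNT
import Pool.Agent.N918.G3.GEO
import Pool.Agent.N454.G3.LEN
import Pool.Agent.N221.G3.VAL
import Pool.Agent.N700.G3.CA
import Pool.Agent.N833.G3.INT
import Pool.Agent.N768.G3.ALG
import Pool.Agent.TH555.FG.Noeth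
import Pool.Agent.H785R3.GrowthF
import Pool.Agent.W963.GE.Index
import Pool.Agent.Helper111.EN.NS

/-!
# Project G3: groups modulo the third derived subgroup
-/

set_option autoImplicit false

namespace Pool.Agent.N600.G3

open scoped Pointwise commutatorElement
open Subgroup Filter Topology
open Pool.Agent.H785R3.GrowthA (NoFree)
open Pool.Agent.Helper111.EN.NSc (NS NS_ext NS_of_nilpotent_fg NS_top_iff)

universe u

theorem thA : S_THA.{u} :=
  t_tha N918.G3.t_geo N454.G3.t_len
    (N558.G3.t_cnt (N488.G3.t_entf N787.G3.t_ent2 (N99.G3.t_ent3 N711.G3.t_ent1))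
      N405.G3.t_fib N713.G3.t_sec N693.G3.t_prd N693.G3.t_tri N499.G3.t_eps)

theorem alg : S_ALG.{u} := N768.G3.t_alg N700.G3.t_ca N833.G3.t_int N221.G3.t_val

/-- growth bounds pass from quotients to the group -/
lemma card_map_pow {G G' : Type*} [Group G] [Group G'] (φ : G →* G') (T : Set G)
    (hfin : T.Finite) (n : ℕ) : Nat.card ↥((φ '' T) ^ n) ≤ Nat.card ↥(T ^ n) := by
  have h1 : (φ '' T) ^ n = φ '' (T ^ n) := (Set.image_pow φ T n).symm
  rw [h1, Nat.card_coe_set_eq, Nat.card_coe_set_eq]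
  exact Set.ncard_image_le (finite_pow hfin n)

lemma one_le_card {G : Type*} [Group G] {T : Set G} (hfin : T.Finite) (h1T : 1 ∈ T) (n : ℕ) :
    1 ≤ Nat.card ↥(T ^ n) := by
  have h1 : Finite ↥(T ^ n) := (finite_pow hfin n).to_subtype
  have h2 : Nonempty ↥(T ^ n) := ⟨⟨1, by simpa using Set.pow_mem_pow (n := n) h1T⟩⟩
  exact Nat.card_pos

lemma card_pow_mul_le {G : Type*} [Group G] (T : Set G) (n : ℕ) :
    ∀ k : ℕ, Nat.card ↥(T ^ (k * n)) ≤ (Nat.card ↥(T ^ n)) ^ k :=
  fun k => Pool.Agent.TH555.FG.card_pow_mul T k n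

/-- the dichotomy for `G''' = 1` -/
theorem core3 {G : Type u} [Group G] (T : Set G) (hfin : T.Finite) (h1T : 1 ∈ T)
    (hinv : T⁻¹ = T) (hgen : closure T = ⊤)
    (habel : ∀ x ∈ commutator (commutator G), ∀ y ∈ commutator (commutator G), x * y = y * x) :
    (∀ n : ℕ, 2 ^ n ≤ (Nat.card ↥(T ^ n)) ^ 88) ∨ NS (⊤ : Subgroup G) := by
  have up : (∀ n : ℕ, 2 ^ n ≤ (Nat.card ↥(T ^ n)) ^ 3) →
      ∀ n : ℕ, 2 ^ n ≤ (Nat.card ↥(T ^ n)) ^ 88 := fun h n =>
    (h n).trans (Nat.pow_le_pow_right (one_le_card hfin h1T n) (by norm_num))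
  by_cases hNF : NoFree T 3
  swap
  · left
    exact up fun n => Pool.Agent.TH555.FG.two_pow_of_pair hfin hNF n
  have hab : Group.IsNilpotent (G ⧸ commutator G) := by
    have : Group.IsNilpotent (Abelianization G) := CommGroup.isNilpotent
    exact this
  have hFG : (commutator G).FG :=
    Pool.Agent.TH555.FG.fg_of_nilpotent_quotient hfin hgen hNF (commutator G) hab
  by_cases hN : (commutator (commutator G)).FG
  swap
  · left
    obtain ⟨K, hK, h⟩ := red alg thA G T hfin h1T hinv hgen hFG habel hN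
    intro n
    have h1 := h n
    have h2 : Nat.card ↥(T ^ (22 * K * n)) ≤ (Nat.card ↥(T ^ n)) ^ (22 * K) :=
      card_pow_mul_le T n _
    have h3 : (2 ^ n) ^ K ≤ ((Nat.card ↥(T ^ n)) ^ 88) ^ K := by
      calc (2 ^ n) ^ K = 2 ^ (K * n) := by rw [← pow_mul, mul_comm]
        _ ≤ (Nat.card ↥(T ^ (22 * K * n))) ^ 4 := h1
        _ ≤ ((Nat.card ↥(T ^ n)) ^ (22 * K)) ^ 4 := Nat.pow_le_pow_left h2 4
        _ = _ := by rw [← pow_mul, ← pow_mul]; congr 1; ring
    exact (Nat.pow_le_pow_iff_left (by omega)).1 h3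
  -- the quotient by the second derived subgroup
  let D : Subgroup G := (commutator (commutator G)).map (commutator G).subtype
  have hD : D = ⁅commutator G, commutator G⁆ := map_subtype_commutator (commutator G)
  have hDn : D.Normal := by rw [hD]; infer_instance
  let π : G →* G ⧸ D := QuotientGroup.mk' D
  have hπ : Function.Surjective π := QuotientGroup.mk'_surjective D
  have hgen' : closure (π '' T) = ⊤ := by
    rw [← MonoidHom.map_closure, hgen, ← MonoidHom.range_eq_map]
    exact MonoidHom.range_eq_top.2 hπ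
  by_cases hNF' : NoFree (π '' T) 3
  swap
  · left
    refine up fun n => ?_
    exact (Pool.Agent.TH555.FG.two_pow_of_pair (hfin.image π) hNF' n).trans
      (Nat.pow_le_pow_left (card_map_pow π T hfin n) 3)
  right
  refine NS_ext π ⊤ ?_ ?_
  · intro R _
    have hab' : Group.IsNilpotent ((G ⧸ D) ⧸ commutator (G ⧸ D)) := by
      have : Group.IsNilpotent (Abelianization (G ⧸ D)) := CommGroup.isNilpotent
      exact this
    refine Pool.Agent.TH555.FG.noeth_of_noFree (hfin.image π) hgen' hNF' (commutator (G ⧸ D))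
      hab' ?_ R
    intro P hP hPfg R' hR'
    refine Pool.Agent.TH555.FG.sub_fg hPfg ?_ hR'
    intro a ha b hb
    have hc : commutator (G ⧸ D) = (commutator G).map π := by
      rw [_root_.commutator_def, _root_.commutator_def, map_commutator,
        map_top_of_surjective π hπ]
    have h1 := hP ha
    have h2 := hP hb
    rw [hc] at h1 h2
    obtain ⟨x, hx, rfl⟩ := h1
    obtain ⟨y, hy, rfl⟩ := h2
    have h3 : x * y * x⁻¹ * y⁻¹ ∈ D := by
      rw [hD]
      exact commutator_mem_commutator hx hy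
    have h4 : π (x * y * x⁻¹ * y⁻¹) = 1 := (QuotientGroup.eq_one_iff _).2 h3
    rw [map_mul, map_mul, map_mul, map_inv, map_inv, mul_inv_eq_one, mul_inv_eq_iff_eq_mul] at h4
    exact h4
  · rw [QuotientGroup.ker_mk', top_inf_eq]
    intro R hR
    have hDfg : D.FG := Pool.Agent.TH555.FG.fg_map (commutator G).subtype hN
    refine Pool.Agent.TH555.FG.sub_fg hDfg ?_ hR
    rintro _ ⟨x, hx, rfl⟩ _ ⟨y, hy, rfl⟩
    rw [← map_mul, ← map_mul, habel x hx y hy]

lemma derived_three {G : Type*} [Group G] :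
    derivedSeries G 3 = ⁅⁅commutator G, commutator G⁆, ⁅commutator G, commutator G⁆⁆ := by
  rw [derivedSeries_succ, derivedSeries_succ, derivedSeries_succ, derivedSeries_zero]
  rfl

/-- the general dichotomy -/
theorem main {G : Type u} [Group G] (T : Set G) (hfin : T.Finite) (h1T : 1 ∈ T)
    (hinv : T⁻¹ = T) (hgen : closure T = ⊤) :
    (∀ n : ℕ, 2 ^ n ≤ (Nat.card ↥(T ^ n)) ^ 88) ∨
      (NS (⊤ : Subgroup (G ⧸ derivedSeries G 3)) ∧
        (Group.IsNilpotent (derivedSeries G 2) → NS (⊤ : Subgroup G))) := by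
  let D := derivedSeries G 3
  let π : G →* G ⧸ D := QuotientGroup.mk' D
  have hπ : Function.Surjective π := QuotientGroup.mk'_surjective D
  have hgen' : closure (π '' T) = ⊤ := by
    rw [← MonoidHom.map_closure, hgen, ← MonoidHom.range_eq_map]
    exact MonoidHom.range_eq_top.2 hπ
  have hinv' : (π '' T)⁻¹ = π '' T := by
    rw [← Set.image_inv, hinv]
  have h1' : (1 : G ⧸ D) ∈ π '' T := ⟨1, h1T, map_one π⟩
  have hbot : derivedSeries (G ⧸ D) 3 = ⊥ := by
    rw [← map_derivedSeries_eq hπ 3, eq_bot_iff]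
    rintro _ ⟨x, hx, rfl⟩
    rw [Subgroup.mem_bot]
    exact (QuotientGroup.eq_one_iff x).2 hx
  have habel : ∀ x ∈ commutator (commutator (G ⧸ D)), ∀ y ∈ commutator (commutator (G ⧸ D)),
      x * y = y * x := by
    intro x hx y hy
    have hx' : (x : G ⧸ D) ∈ ⁅commutator (G ⧸ D), commutator (G ⧸ D)⁆ := by
      rw [← map_subtype_commutator]; exact ⟨x, hx, rfl⟩
    have hy' : (y : G ⧸ D) ∈ ⁅commutator (G ⧸ D), commutator (G ⧸ D)⁆ := by
      rw [← map_subtype_commutator]; exact ⟨y, hy, rfl⟩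
    have h1 : ⁅(x : G ⧸ D), (y : G ⧸ D)⁆ ∈ derivedSeries (G ⧸ D) 3 := by
      rw [derived_three]
      exact commutator_mem_commutator hx' hy'
    rw [hbot, Subgroup.mem_bot, commutatorElement_eq_one_iff_mul_comm] at h1
    exact Subtype.ext h1
  rcases core3 (π '' T) (hfin.image π) h1' hinv' hgen' habel with h | h
  · left
    intro n
    exact (h n).trans (Nat.pow_le_pow_left (card_map_pow π T hfin n) 88)
  · right
    refine ⟨h, fun hnil => ?_⟩
    -- the second derived subgroup is finitely generated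
    have h2 : ((derivedSeries G 2).map π).FG := h _ le_top
    obtain ⟨F₀, hF₀, hF₀fin⟩ := (Subgroup.fg_iff _).1 h2
    have hlift : ∀ x : G ⧸ D, ∃ y : G, x ∈ F₀ → y ∈ derivedSeries G 2 ∧ π y = x := by
      intro x
      by_cases hx : x ∈ F₀
      · have : x ∈ (derivedSeries G 2).map π := by rw [← hF₀]; exact Subgroup.subset_closure hx
        obtain ⟨y, hy, rfl⟩ := this
        exact ⟨y, fun _ => ⟨hy, rfl⟩⟩
      · exact ⟨1, fun h => absurd h hx⟩
    choose f hf using hlift
    have hFsub : f '' F₀ ⊆ (derivedSeries G 2 : Set G) := by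
      rintro _ ⟨x, hx, rfl⟩; exact (hf x hx).1
    have hD3 : D = ⁅derivedSeries G 2, derivedSeries G 2⁆ := derivedSeries_succ G 2
    have hgen2 : derivedSeries G 2 = closure (f '' F₀) ⊔ ⁅derivedSeries G 2, derivedSeries G 2⁆ := by
      apply le_antisymm
      · intro z hz
        have h3 : π z ∈ (closure (f '' F₀)).map π := by
          have h4 : (closure (f '' F₀)).map π = closure F₀ := by
            rw [MonoidHom.map_closure]
            congr 1
            rw [← Set.image_comp]
            ext x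
            constructor
            · rintro ⟨y, hy, rfl⟩
              show π (f y) ∈ F₀
              rw [(hf y hy).2]; exact hy
            · intro hx
              exact ⟨x, hx, (hf x hx).2⟩
          rw [h4, hF₀]
          exact ⟨z, hz, rfl⟩
        obtain ⟨w, hw, hwz⟩ := h3
        have h5 : w⁻¹ * z ∈ D := by
          rw [← QuotientGroup.eq_one_iff]
          show π (w⁻¹ * z) = 1
          rw [map_mul, map_inv, hwz, inv_mul_cancel]
        rw [hD3] at h5
        have : z = w * (w⁻¹ * z) := by group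
        rw [this]
        exact mul_mem (mem_sup_left hw) (mem_sup_right h5)
      · refine sup_le ((closure_le _).2 hFsub) ?_
        exact commutator_le_left _ _
    have h6 := Pool.Agent.H785R3.GrowthA.nilp_gen hnil hFsub hgen2
    have h7 : (derivedSeries G 2).FG := (Subgroup.fg_iff _).2 ⟨_, h6, hF₀fin.image f⟩
    have h8 : NS (derivedSeries G 2) := NS_of_nilpotent_fg _ hnil h7
    -- extension
    refine NS_ext (QuotientGroup.mk' (derivedSeries G 2)) ⊤ ?_ ?_
    · let θ : G ⧸ D →* G ⧸ derivedSeries G 2 :=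
        QuotientGroup.map D (derivedSeries G 2) (MonoidHom.id G)
          (derivedSeries_antitone G (show 2 ≤ 3 by norm_num))
      have h9 := h.map θ
      intro R _
      refine h9 R ?_
      intro x _
      obtain ⟨x, rfl⟩ := QuotientGroup.mk_surjective x
      exact ⟨QuotientGroup.mk x, mem_top _, rfl⟩
    · rw [QuotientGroup.ker_mk', top_inf_eq]
      exact h8

lemma rho_ge_88 {G : Type u} [Group G] (S : Set G) (h : ∀ n, 2 ^ n ≤ Nat.card ↥(S ^ n) ^ 88) :
    Real.log 2 / 88 ≤ H746UG.rho S := by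
  refine ge_of_tendsto (H746UG.tendsto_rho S) ?_
  filter_upwards [eventually_gt_atTop 0] with n hn
  have h1 := h n
  have h2 : 0 < Nat.card ↥(S ^ n) := Nat.pos_of_ne_zero (fun h3 => by
    rw [h3] at h1
    simp at h1)
  have h3 : Real.log ((2 : ℝ) ^ n) ≤ Real.log ((Nat.card ↥(S ^ n) : ℝ) ^ 88) := by
    apply Real.log_le_log (by positivity)
    exact_mod_cast h1
  rw [Real.log_pow, Real.log_pow] at h3
  have hn' : (0 : ℝ) < n := by exact_mod_cast hn
  rw [div_le_div_iff₀ (by norm_num) hn']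
  push_cast at h3
  linarith


/-- a group is slender if a subgroup of finite index is -/
lemma NS_of_index {G : Type u} [Group G] (H : Subgroup G) (hH : H.index ≠ 0)
    (h : NS (⊤ : Subgroup H)) (K : Subgroup G) : K.FG := by
  classical
  have hNS : NS H := (NS_top_iff H).1 h
  have h1 : (H ⊓ K).FG := hNS _ inf_le_left
  have : H.FiniteIndex := ⟨hH⟩
  have hfq : Finite (G ⧸ H) := inferInstance
  -- representatives in `K` of the cosets of `H` that meet `K`
  have hrep : ∀ q : G ⧸ H, ∃ r ∈ K, (∃ k ∈ K, (QuotientGroup.mk k : G ⧸ H) = q) →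
      (QuotientGroup.mk r : G ⧸ H) = q := by
    intro q
    by_cases hq : ∃ k ∈ K, (QuotientGroup.mk k : G ⧸ H) = q
    · obtain ⟨k, hk, hkq⟩ := hq
      exact ⟨k, hk, fun _ => hkq⟩
    · exact ⟨1, one_mem _, fun h => absurd h hq⟩
  choose r hrK hr using hrep
  have h2 : K = (H ⊓ K) ⊔ closure (Set.range r) := by
    apply le_antisymm
    · intro k hk
      have h3 := hr (QuotientGroup.mk k) ⟨k, hk, rfl⟩
      have h4 : (r (QuotientGroup.mk k))⁻¹ * k ∈ H := QuotientGroup.eq.1 h3
      have h5 : k = r (QuotientGroup.mk k) * ((r (QuotientGroup.mk k))⁻¹ * k) := by group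
      rw [h5]
      refine mul_mem (mem_sup_right (Subgroup.subset_closure ⟨_, rfl⟩)) (mem_sup_left ⟨h4, ?_⟩)
      exact K.mul_mem (K.inv_mem (hrK _)) hk
    · refine sup_le inf_le_right ((closure_le _).2 ?_)
      rintro _ ⟨q, rfl⟩
      exact hrK q
  rw [h2]
  exact Subgroup.FG.sup h1 ((Subgroup.fg_iff _).2 ⟨_, rfl, Set.finite_range r⟩)

theorem final {G : Type u} [Group G] (S : Set G) (hfin : S.Finite) (hsym : S⁻¹ = S)
    (hgen : closure S = ⊤) (H : Subgroup G) (d : ℕ) (hH : H.index ≠ 0) (hd : H.index ≤ d) :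
    Real.log 2 / (88 * (2 * d - 1)) ≤ H746UG.rho S ∨
      ((∀ K : Subgroup (H ⧸ derivedSeries H 3), K.FG) ∧
        (Group.IsNilpotent (derivedSeries H 2) → ∀ K : Subgroup G, K.FG)) := by
  rcases S.eq_empty_or_nonempty with hS | hne
  · right
    have htriv : ∀ x : G, x = 1 := by
      intro x
      have hx : x ∈ closure S := by rw [hgen]; exact mem_top x
      rw [hS, Subgroup.closure_empty, Subgroup.mem_bot] at hx
      exact hx
    have hs : Subsingleton G := ⟨fun a b => by rw [htriv a, htriv b]⟩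
    have hsH : Subsingleton H := inferInstance
    have hsQ : Subsingleton (H ⧸ derivedSeries H 3) := inferInstance
    refine ⟨fun K => ?_, fun _ K => ?_⟩
    · exact (Subgroup.fg_iff _).2 ⟨∅, Subsingleton.elim _ _, Set.finite_empty⟩
    · exact (Subgroup.fg_iff _).2 ⟨∅, Subsingleton.elim _ _, Set.finite_empty⟩
  have hd1 : 1 ≤ d := by omega
  set T := W963.GE.TT S H d with hT
  have hTfin : T.Finite := W963.GE.TT_finite S hfin H d
  have hTgen : closure T = ⊤ := W963.GE.TT_gen S hgen H hH hd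
  have h1T : (1 : H) ∈ T := by
    show ((1 : H) : G) ∈ (insert 1 S) ^ (2 * d - 1)
    have : (1 : G) ∈ insert 1 S := Set.mem_insert _ _
    simpa using Set.pow_mem_pow (n := 2 * d - 1) this
  have hinv1 : (insert 1 S)⁻¹ = insert 1 S := by
    rw [Set.inv_insert, inv_one, hsym]
  have hTinv : T⁻¹ = T := by
    ext x
    rw [Set.mem_inv]
    constructor
    · intro hx
      have := inv_mem_pow hinv1 (show ((x⁻¹ : H) : G) ∈ (insert 1 S) ^ (2 * d - 1) from hx)
      rw [← coe_inv, inv_inv] at this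
      exact this
    · intro hx
      exact inv_mem_pow hinv1 (show (x : G) ∈ (insert 1 S) ^ (2 * d - 1) from hx)
  rcases main T hTfin h1T hTinv hTgen with h | ⟨h1, h2⟩
  · left
    have h3 := rho_ge_88 T h
    have h4 := W963.GE.rho_TT S hfin hne H hd1
    have he : ((2 * d - 1 : ℕ) : ℝ) = 2 * d - 1 := by
      rw [Nat.cast_sub (by omega)]; push_cast; ring
    rw [he] at h4
    have hpos : (0 : ℝ) < 2 * d - 1 := by
      have : (1 : ℝ) ≤ d := by exact_mod_cast hd1
      linarith
    have h5 := h3.trans h4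
    rw [← div_div, div_le_iff₀ hpos, mul_comm (H746UG.rho S)]
    exact h5
  · right
    refine ⟨fun K => h1 K le_top, fun hnil K => NS_of_index H hH (h2 hnil) K⟩

end Pool.Agent.N600.G3
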