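import Pool.Agent.N600.G3.Tha

set_option autoImplicit false

namespace Pool.Agent.N600.G3

open scoped Pointwise commutatorElement
open Subgroup

universe u

lemma CT_sub {G : Type*} [Group G] (T : Set G) : CT T ⊆ (commutator G : Set G) := by
  rintro _ ⟨s, _, t, _, rfl⟩
  exact commutator_mem_commutator (mem_top s) (mem_top t)

/-- the derived subgroup is the normal closure of the commutators of generators -/
lemma comm_le {G : Type*} [Group G] {T : Set G} (hgen : closure T = ⊤) :
    commutator G ≤ normalClosure (CT T) := by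
  set N := normalClosure (CT T) with hN
  let π := QuotientGroup.mk' N
  have hπ : Function.Surjective π := QuotientGroup.mk'_surjective N
  have h0 : ∀ s ∈ T, ∀ t ∈ T, π s * π t = π t * π s := by
    intro s hs t ht
    have h : s * t * s⁻¹ * t⁻¹ ∈ N := subset_normalClosure ⟨s, hs, t, ht, rfl⟩
    have h1 : π (s * t * s⁻¹ * t⁻¹) = 1 := (QuotientGroup.eq_one_iff _).2 h
    rw [map_mul, map_mul, map_mul, map_inv, map_inv, mul_inv_eq_one, mul_inv_eq_iff_eq_mul] at h1
    exact h1
  have h1 : ∀ s ∈ T, ∀ y : G, π s * π y = π y * π s := by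
    intro s hs y
    have hy : y ∈ closure T := by rw [hgen]; exact mem_top y
    induction hy using closure_induction with
    | mem y hy => exact h0 s hs y hy
    | one => rw [map_one, mul_one, one_mul]
    | mul a b _ _ ha hb => rw [map_mul, ← mul_assoc, ha, mul_assoc, hb, mul_assoc]
    | inv a _ ha =>
      rw [map_inv, mul_inv_eq_iff_eq_mul, mul_assoc, ha, inv_mul_cancel_left]
  have h2 : ∀ x y : G, π x * π y = π y * π x := by
    intro x y
    have hx : x ∈ closure T := by rw [hgen]; exact mem_top x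
    induction hx using closure_induction with
    | mem x hx => exact h1 x hx y
    | one => rw [map_one, mul_one, one_mul]
    | mul a b _ _ ha hb => rw [map_mul, mul_assoc, hb, ← mul_assoc, ha, mul_assoc]
    | inv a _ ha =>
      rw [map_inv, inv_mul_eq_iff_eq_mul, ← mul_assoc, ha, mul_inv_cancel_right]
  rw [commutator_def, commutator_le]
  intro x _ y _
  have h3 : π ⁅x, y⁆ = 1 := by
    rw [commutatorElement_def, map_mul, map_mul, map_mul, map_inv, map_inv, h2 x y,
      mul_inv_cancel_right, mul_inv_cancel]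
  exact (QuotientGroup.eq_one_iff _).1 h3

lemma cj_comm_mem {G : Type*} [Group G] (g : G) {x : commutator G}
    (hx : x ∈ commutator (commutator G)) : cj g x ∈ commutator (commutator G) := by
  have h : (commutator (commutator G)).map (cj g) ≤ commutator (commutator G) := by
    rw [_root_.commutator_def ↥(_root_.commutator G), map_commutator]
    exact commutator_mono le_top le_top
  exact h ⟨x, hx, rfl⟩

lemma f_one {M F : Type*} [Group M] [Field F] {f : M → F}
    (hf1 : ∀ x ∈ commutator M, ∀ y ∈ commutator M, f (x * y) = f x + f y) : f 1 = 0 := by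
  have := hf1 1 (one_mem _) 1 (one_mem _)
  rw [mul_one] at this
  simpa using this

/-- non-polycyclic groups of derived length three have exponential growth in a uniform way -/
theorem red (hA : S_ALG.{u}) (hT : S_THA.{u}) (G : Type u) [Group G] (T : Set G)
    (hfin : T.Finite) (h1T : 1 ∈ T) (hinv : T⁻¹ = T) (hgen : closure T = ⊤)
    (hFG : (commutator G).FG)
    (habel : ∀ x ∈ commutator (commutator G), ∀ y ∈ commutator (commutator G), x * y = y * x)
    (hnfg : ¬ (commutator (commutator G)).FG) :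
    ∃ K > 0, ∀ R : ℕ, 2 ^ (K * R) ≤ (Nat.card ↥(T ^ (22 * K * R))) ^ 4 := by
  have : Group.FG (commutator G) := (Group.fg_iff_subgroup_fg _).2 hFG
  obtain ⟨F, iF, Γ₀, iΓ, v, χ, f, hf1, hf2, ⟨x0, hx0, hfx0⟩, m0, hm0⟩ :=
    hA (commutator G) habel hnfg
  -- a short commutator
  have hex : ∃ (g : G) (c : commutator G), (c : G) ∈ CT T ∧ v (χ (cj g c) : F) ≠ 1 := by
    by_contra hcon
    push Not at hcon
    let Q : Subgroup G :=
      { carrier := {x | ∃ hx : x ∈ commutator G, ∀ g : G, v (χ (cj g ⟨x, hx⟩) : F) = 1}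
        mul_mem' := by
          rintro a b ⟨ha, ha'⟩ ⟨hb, hb'⟩
          refine ⟨mul_mem ha hb, fun g => ?_⟩
          have : (⟨a * b, mul_mem ha hb⟩ : commutator G) = ⟨a, ha⟩ * ⟨b, hb⟩ := rfl
          rw [this, map_mul, map_mul, Units.val_mul, map_mul, ha' g, hb' g, one_mul]
        one_mem' := by
          refine ⟨one_mem _, fun g => ?_⟩
          have : (⟨1, one_mem _⟩ : commutator G) = 1 := rfl
          rw [this, map_one, map_one, Units.val_one, map_one]
        inv_mem' := by
          rintro a ⟨ha, ha'⟩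
          refine ⟨inv_mem ha, fun g => ?_⟩
          have : (⟨a⁻¹, inv_mem ha⟩ : commutator G) = (⟨a, ha⟩ : commutator G)⁻¹ := rfl
          rw [this, map_inv, map_inv, Units.val_inv_eq_inv_val, map_inv₀, ha' g, inv_one] }
    have hQn : Q.Normal := by
      refine ⟨?_⟩
      rintro a ⟨ha, ha'⟩ h
      refine ⟨(commutator_normal ⊤ ⊤).conj_mem a ha h, fun g => ?_⟩
      have e : (⟨h * a * h⁻¹, (commutator_normal ⊤ ⊤).conj_mem a ha h⟩ : commutator G) =
          cj h ⟨a, ha⟩ := rfl
      rw [e, cj_cj]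
      exact ha' (g * h)
    have hle : commutator G ≤ Q := by
      refine (comm_le hgen).trans (normalClosure_le_normal ?_)
      intro x hx
      exact ⟨CT_sub T hx, fun g => hcon g ⟨x, CT_sub T hx⟩ hx⟩
    obtain ⟨hm, hm'⟩ := hle m0.2
    apply hm0
    have := hm' 1
    rw [cj_one] at this
    exact this
  obtain ⟨g, c, hc, hvc⟩ := hex
  let χ' : commutator G →* Fˣ := χ.comp (cj g)
  let f' : commutator G → F := fun x => f (cj g x)
  have hf1' : ∀ x ∈ commutator (commutator G), ∀ y ∈ commutator (commutator G),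
      f' (x * y) = f' x + f' y := by
    intro x hx y hy
    show f (cj g (x * y)) = _
    rw [map_mul, hf1 _ (cj_comm_mem g hx) _ (cj_comm_mem g hy)]
  have hf2' : ∀ m, ∀ x ∈ commutator (commutator G), f' (m * x * m⁻¹) = (χ' m : F) * f' x := by
    intro m x hx
    show f (cj g (m * x * m⁻¹)) = _
    rw [map_mul, map_mul, map_inv, hf2 _ _ (cj_comm_mem g hx)]
    rfl
  have hcm : ∀ m, c * m * c⁻¹ * m⁻¹ ∈ commutator (commutator G) := fun m =>
    commutator_mem_commutator (mem_top c) (mem_top m)
  have hcr : Crossed χ' (fun m => f' (c * m * c⁻¹ * m⁻¹)) := by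
    intro m m'
    have e : c * (m * m') * c⁻¹ * (m * m')⁻¹ =
        (c * m * c⁻¹ * m⁻¹) * (m * (c * m' * c⁻¹ * m'⁻¹) * m⁻¹) := by group
    show f' (c * (m * m') * c⁻¹ * (m * m')⁻¹) = _
    rw [e, hf1' _ (hcm m) _ (Normal.conj_mem inferInstance _ (hcm m') m), hf2' _ _ (hcm m')]
  refine hT G T hfin h1T hinv hgen F Γ₀ v χ' _ hcr c hc ?_ hvc ?_
  · show f' (c * c * c⁻¹ * c⁻¹) = 0
    have e : c * c * c⁻¹ * c⁻¹ = 1 := by group
    rw [e]
    show f (cj g 1) = 0
    rw [map_one]
    exact f_one hf1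
  · refine ⟨cj g⁻¹ x0, ?_⟩
    have h1 : cj g⁻¹ x0 ∈ commutator (commutator G) := cj_comm_mem _ hx0
    have h2 : f' (cj g⁻¹ x0) = f x0 := by
      show f (cj g (cj g⁻¹ x0)) = _
      rw [cj_cj, mul_inv_cancel, cj_one]
    show f' (c * cj g⁻¹ x0 * c⁻¹ * (cj g⁻¹ x0)⁻¹) ≠ 0
    rw [hf1' _ (Normal.conj_mem inferInstance _ h1 c) _ (inv_mem h1), hf2' _ _ h1]
    have h3 : f' ((cj g⁻¹ x0)⁻¹) = - f' (cj g⁻¹ x0) := by
      have h4 := hf1' _ h1 _ (inv_mem h1)
      rw [mul_inv_cancel] at h4
      have h5 : f' 1 = 0 := by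
        show f (cj g 1) = 0
        rw [map_one]
        exact f_one hf1
      rw [h5] at h4
      exact (eq_neg_of_add_eq_zero_right h4.symm)
    rw [h3, h2]
    have h6 : (χ' c : F) * f x0 + -f x0 = ((χ' c : F) - 1) * f x0 := by ring
    rw [h6]
    refine mul_ne_zero (sub_ne_zero.2 ?_) hfx0
    intro h7
    apply hvc
    show v (χ' c : F) = 1
    rw [h7, map_one]

end Pool.Agent.N600.G3
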