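import Pool.Agent.N600.G3.Stm

set_option autoImplicit false

namespace Pool.Agent.N600.G3

open scoped Pointwise

universe u

lemma cj_coe {G : Type*} [Group G] (g : G) (m : commutator G) :
    ((cj g m : commutator G) : G) = g * m * g⁻¹ := rfl

lemma cj_cj {G : Type*} [Group G] (g h : G) (m : commutator G) :
    cj g (cj h m) = cj (g * h) m := by
  apply Subtype.ext
  rw [cj_coe, cj_coe, cj_coe]
  group

lemma cj_one {G : Type*} [Group G] (m : commutator G) : cj 1 m = m := by
  apply Subtype.ext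
  rw [cj_coe]
  group

lemma AA_map {M M' : Type*} [Group M] [Group M'] (φ : M →* M') {K : ℕ} (d : Fin K → M)
    (x : Fin K → Bool) : φ (AA d x) = AA (fun j => φ (d j)) x := by
  unfold AA
  rw [map_list_prod, List.map_ofFn]
  congr 2
  funext j
  show φ (if x j then d j else 1) = _
  split_ifs
  · rfl
  · exact map_one φ

lemma inv_mem_pow {G : Type*} [Group G] {T : Set G} (hinv : T⁻¹ = T) {n : ℕ} {x : G}
    (hx : x ∈ T ^ n) : x⁻¹ ∈ T ^ n := by
  have h : (T ^ n)⁻¹ = T ^ n := by rw [← inv_pow, hinv]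
  rw [← h]
  exact Set.inv_mem_inv.2 hx

lemma prod_mem_pow {G : Type*} [Group G] {T : Set G} {L : ℕ} :
    ∀ (R : ℕ) (w : Fin R → G), (∀ r, w r ∈ T ^ L) → (List.ofFn w).prod ∈ T ^ (L * R) := by
  intro R
  induction R with
  | zero => intro w _; simp
  | succ R ih =>
    intro w hw
    rw [List.ofFn_succ, List.prod_cons, Nat.mul_succ, add_comm, pow_add]
    exact Set.mul_mem_mul (hw 0) (ih _ fun r => hw r.succ)

lemma finite_pow {G : Type*} [Group G] {T : Set G} (hfin : T.Finite) :
    ∀ n : ℕ, (T ^ n).Finite := by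
  intro n
  induction n with
  | zero => rw [pow_zero]; exact Set.finite_one
  | succ n ih => rw [pow_succ]; exact ih.mul hfin

theorem t_tha (h1 : S_GEO.{u}) (h2 : S_LEN.{u}) (h3 : S_CNT.{u}) : S_THA.{u} := by
  intro G _ T hfin h1T hinv hgen F _ Γ₀ _ v χ b hb c hc hbc hvc hne
  obtain ⟨K, s, d, hK, hs, hd, hi, hii, hiii⟩ := h1 G T h1T hinv hgen F χ b hb c hc hbc hne
  let g : Fin K → G := fun i => (hh s (K - 1 - i))⁻¹
  let χ' : Fin K → commutator G →* Fˣ := fun i => χ.comp (cj (g i))
  let b' : Fin K → commutator G → F := fun i m => b (cj (g i) m)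
  let c' : Fin K → commutator G := fun j => cj (hh s (K - 1 - j)) c
  let d' : Fin K → commutator G := fun j => cj (hh s (K + (K - 1 - j))) d
  have hb' : ∀ k, Crossed (χ' k) (b' k) := by
    intro k m m'
    show b (cj (g k) (m * m')) = b (cj (g k) m) + (χ (cj (g k) m) : F) * b (cj (g k) m')
    rw [map_mul, hb]
  have e1 : ∀ i j, b' i (c' j) = 0 := by
    intro i j
    show b (cj (g i) (cj (hh s (K - 1 - j)) c)) = 0
    rw [cj_cj]
    exact hi _ (by omega) _ (by omega)
  have e2 : ∀ i j, i < j → b' i (d' j) = 0 := by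
    intro i j hij
    show b (cj (g i) (cj (hh s (K + (K - 1 - j))) d)) = 0
    rw [cj_cj]
    have : (i : ℕ) < j := hij
    exact hii _ _ (by omega) (by omega)
  have e3 : ∀ i, b' i (d' i) ≠ 0 := by
    intro i
    show b (cj (g i) (cj (hh s (K + (K - 1 - i))) d)) ≠ 0
    rw [cj_cj]
    exact hiii _ (by omega)
  have e4 : ∀ i, v (χ' i (c' i) : F) ≠ 1 := by
    intro i
    show v (χ (cj (g i) (cj (hh s (K - 1 - i)) c)) : F) ≠ 1
    rw [cj_cj]
    have : g i * hh s (K - 1 - i) = 1 := inv_mul_cancel _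
    rw [this, cj_one]
    exact hvc
  obtain ⟨ε, hε⟩ := h3 (commutator G) F Γ₀ v K χ' b' hb' c' d' e1 e2 e3 e4
  obtain ⟨hL1, hL2⟩ := h2 G T h1T hinv s hs c d hc hd K hK
  refine ⟨K, hK, fun R => (hε R).trans (Nat.pow_le_pow_left ?_ 4)⟩
  have hmem : ∀ δ : Fin R → Fin K → Bool,
      ((((List.ofFn fun r => AA d' (δ r) * AA c' ε * (AA d' (δ r))⁻¹).prod :
        commutator G)) : G) ∈ T ^ (22 * K * R) := by
    intro δ
    have h5 : ((((List.ofFn fun r => AA d' (δ r) * AA c' ε * (AA d' (δ r))⁻¹).prod :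
        commutator G)) : G) = (List.ofFn fun r => (((AA d' (δ r) * AA c' ε * (AA d' (δ r))⁻¹ :
          commutator G)) : G)).prod := by
      have := map_list_prod (commutator G).subtype
        (List.ofFn fun r => AA d' (δ r) * AA c' ε * (AA d' (δ r))⁻¹)
      rw [List.map_ofFn] at this
      exact this
    rw [h5]
    apply prod_mem_pow
    intro r
    have h6 : ((AA d' (δ r) : commutator G) : G) ∈ T ^ (8 * K) := by
      have := AA_map (commutator G).subtype d' (δ r)
      show (commutator G).subtype _ ∈ _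
      rw [this]
      exact hL2 (δ r)
    have h7 : ((AA c' ε : commutator G) : G) ∈ T ^ (6 * K) := by
      have := AA_map (commutator G).subtype c' ε
      show (commutator G).subtype _ ∈ _
      rw [this]
      exact hL1 ε
    have h8 : T ^ (22 * K) = T ^ (8 * K) * T ^ (6 * K) * T ^ (8 * K) := by
      rw [← pow_add, ← pow_add]; congr 1; omega
    rw [h8]
    exact Set.mul_mem_mul (Set.mul_mem_mul h6 h7) (inv_mem_pow hinv h6)
  have hfinT : Finite ↥(T ^ (22 * K * R)) := by
    exact (finite_pow hfin _).to_subtype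
  refine Nat.card_le_card_of_injective
    (fun x : Set.range _ => (⟨((x : commutator G) : G), ?_⟩ : ↥(T ^ (22 * K * R)))) ?_
  · obtain ⟨_, δ, rfl⟩ := x
    exact hmem δ
  · intro x y hxy
    have h9 := congrArg (fun z : ↥(T ^ (22 * K * R)) => (z : G)) hxy
    exact Subtype.ext (Subtype.ext h9)

end Pool.Agent.N600.G3
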